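import Pool.Agent.N822.TZ.Stm

/-!
Project TZ (helper822), part PHI (helper642): the Morse cocycle along the powers of two.
-/

set_option autoImplicit false

namespace Pool.Agent.N642.TZ

open Pool.Agent.N822.TZ

lemma val_unit (u : ℤ_[2]) : (2 * u + 1).valuation = 0 := by
  have h : IsUnit (2 * u + 1 : ℤ_[2]) := by
    rw [PadicInt.isUnit_iff]
    by_contra hc
    have h1 : ‖(2 * u + 1 : ℤ_[2])‖ < 1 := lt_of_le_of_ne (PadicInt.norm_le_one _) hc
    have h2 : ‖(2 * u : ℤ_[2])‖ < 1 := by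
      rw [norm_mul]
      have h3 : ‖(2 : ℤ_[2])‖ < 1 := by
        have := PadicInt.norm_p (p := 2)
        push_cast at this
        rw [this]
        norm_num
      calc ‖(2 : ℤ_[2])‖ * ‖u‖ ≤ ‖(2 : ℤ_[2])‖ * 1 :=
            mul_le_mul_of_nonneg_left (PadicInt.norm_le_one _) (norm_nonneg _)
        _ < 1 := by linarith
    have h4 : ‖(1 : ℤ_[2])‖ < 1 := by
      have h5 : (1 : ℤ_[2]) = (2 * u + 1) + (-(2 * u)) := by ring
      rw [h5]
      refine lt_of_le_of_lt (PadicInt.nonarchimedean _ _) ?_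
      rw [norm_neg]
      exact max_lt h1 h2
    simp at h4
  have h6 := PadicInt.isUnit_iff.mp h
  have h7 : (2 * u + 1 : ℤ_[2]) ≠ 0 := h.ne_zero
  rw [PadicInt.norm_eq_zpow_neg_valuation h7] at h6
  have h8 : (-(((2 * u + 1 : ℤ_[2]).valuation : ℕ) : ℤ)) = 0 := by
    by_contra hc
    have h9 := zpow_eq_one_iff_right₀ (a := ((2 : ℕ) : ℝ)) (by norm_num) (by norm_num)
      (n := -(((2 * u + 1 : ℤ_[2]).valuation : ℕ) : ℤ))
    exact hc (h9.mp h6)
  omega

lemma phi_two_mul (u : ℤ_[2]) : phi (2 * u) = true := by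
  unfold phi
  rw [val_unit]
  simp

lemma phi_two_mul_add (u : ℤ_[2]) (hu : u + 1 ≠ 0) : phi (2 * u + 1) = !(phi u) := by
  unfold phi
  have h1 : (2 * u + 1 + 1 : ℤ_[2]) = ((2 : ℕ) : ℤ_[2]) * (u + 1) := by push_cast; ring
  rw [h1, PadicInt.valuation_mul (by simp) hu, PadicInt.valuation_p, add_comm,
    ← decide_not]
  simp only [Nat.even_add_one]

/-- the cocycle along powers of two -/
theorem t_PHI : S_PHI := by
  intro k
  induction k with
  | zero =>
    intro z u r _ hr hz b
    have hr0 : r = 0 := by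
      have : r < 1 := by simpa using hr
      omega
    have hzu : z = u := by rw [hz, hr0]; simp
    rw [pow_zero, pow_one, hzu, pow_zero]
    rfl
  | succ k ih =>
    intro z u r hm hr hz b
    have hu : u + 1 ≠ 0 := by
      intro h
      have h1 : u = -1 := by linear_combination h
      apply hm (2 ^ (k + 1) * (-1) + (r : ℤ))
      rw [hz, h1]
      push_cast
      ring
    have hm' : ∀ m : ℤ, z + 2 ^ k ≠ (m : ℤ_[2]) := by
      intro m h
      apply hm (m - 2 ^ k)
      push_cast
      linear_combination h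
    have hT : (T ^ (2 ^ (k + 1))) (z, b) = (T ^ (2 ^ k)) ((T ^ (2 ^ k)) (z, b)) := by
      rw [← Equiv.Perm.mul_apply, ← pow_add]
      congr 2
      ring
    rw [hT]
    rcases Nat.lt_or_ge r (2 ^ k) with hc | hc
    · rw [ih z (2 * u) r hm hc (by rw [hz]; ring) b,
        ih (z + 2 ^ k) (2 * u + 1) r hm' hc (by rw [hz]; ring), phi_two_mul, phi_two_mul_add u hu]
      refine Prod.ext ?_ ?_
      · show z + 2 ^ k + 2 ^ k = z + 2 ^ (k + 1)
        ring
      · show xor (xor b true) (!(phi u)) = xor b (phi u)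
        cases b <;> cases phi u <;> rfl
    · have hr2 : r - 2 ^ k < 2 ^ k := by
        have : r < 2 ^ k * 2 := by rw [← pow_succ]; exact hr
        omega
      have hrc : (((r - 2 ^ k : ℕ)) : ℤ_[2]) = (r : ℤ_[2]) - 2 ^ k := by
        rw [Nat.cast_sub hc]
        push_cast
        ring
      rw [ih z (2 * u + 1) (r - 2 ^ k) hm hr2 (by rw [hz, hrc]; ring) b,
        ih (z + 2 ^ k) (2 * (u + 1)) (r - 2 ^ k) hm' hr2 (by rw [hz, hrc]; ring), phi_two_mul,
        phi_two_mul_add u hu]
      refine Prod.ext ?_ ?_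
      · show z + 2 ^ k + 2 ^ k = z + 2 ^ (k + 1)
        ring
      · show xor (xor b (!(phi u))) true = xor b (phi u)
        cases b <;> cases phi u <;> rfl

end Pool.Agent.N642.TZ
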